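import Pool.Agent.H174.GP.StI

/-! Coefficients of `Hw` and `Iw` (helper233 for helper174). -/

set_option autoImplicit false

open MeasureTheory ProbabilityTheory Finset Filter Topology

namespace Pool.Agent.H233.GP174

open Pool.Agent.H174.GP

theorem swap (n x : ℕ) (hx : x ≤ n) (f : ℕ → ℕ → ℝ) :
    ∑ u ∈ Finset.Icc 1 x, ∑ j ∈ Finset.Icc 1 u, f u j =
      ∑ j ∈ Finset.Icc 1 n, ∑ u ∈ Finset.Icc j x, f u j := by
  refine Finset.sum_comm' fun u j => ?_
  simp only [Finset.mem_Icc]
  omega

theorem gp_coef : Pool.Agent.H174.GP.S_coef := by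
  intro n x z hx
  constructor
  · unfold Hw S cH
    have h1 : ∀ u ∈ Finset.Icc 1 x, (∑ j ∈ Finset.Icc 1 u, z j) / (u : ℝ) =
        ∑ j ∈ Finset.Icc 1 u, 1 / (u : ℝ) * z j := by
      intro u _
      rw [Finset.sum_div]
      exact Finset.sum_congr rfl fun j _ => by ring
    rw [Finset.sum_congr rfl h1, swap n x hx (fun u j => 1 / (u : ℝ) * z j)]
    exact Finset.sum_congr rfl fun j _ => (Finset.sum_mul _ _ _).symm
  · unfold Iw S cI
    rw [swap n x hx (fun _ j => z j)]
    refine Finset.sum_congr rfl fun j _ => ?_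
    rw [Finset.sum_const, Nat.card_Icc, nsmul_eq_mul]
    by_cases h : j ≤ x
    · rw [if_pos h, Nat.cast_sub (by omega)]
      push_cast
      ring
    · rw [if_neg h]
      have h2 : x + 1 - j = 0 := by omega
      rw [h2]
      simp

end Pool.Agent.H233.GP174
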